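import Pool.Agent.W606.PS.Stm

set_option autoImplicit false

open Set Relation Pool.Agent.W606.PS

namespace Pool.Agent.W577.PS.One1

theorem main (h : S_ADV) : S_ONE1 := by
  intro V T _ G tv M c N U part lev C hS hc hI Om hOm hx
  obtain ⟨x, hxN, hcon, hpart⟩ := hx
  obtain ⟨u₀, hu₀⟩ := hOm.2.1.1
  obtain ⟨v₀, hv₀⟩ := hcon.1
  obtain ⟨a, b, -, -, ha, hb, e⟩ := hS.conn.exit (A := Om) (mem_univ u₀) hu₀ (mem_univ v₀) hv₀
  obtain ⟨_, F, hF, hLip⟩ := hI.reg Om hOm
  have hNbU : ∀ z ∈ Nb G Om, z ∈ U := by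
    rintro z ⟨hz, u, hu, huz⟩
    by_contra hzU
    exact hz (hOm.2.2 u hu z hzU huz)
  have key := h V T G tv M c N U part lev C hI Om hOm {a} (singleton_subset_iff.2 ha)
    (singleton_nonempty a) {x} (by simp)
    (fun d hd => by rw [Finset.mem_singleton] at hd; rw [hd]; exact hxN)
    (fun d hd d' hd' => by
      rw [Finset.mem_singleton] at hd hd'
      rw [hd, hd']
      exact Or.inl rfl)
    (fun z hz => by rw [Finset.mem_singleton]; exact hpart z hz)
    (fun v => max 0 (min (M : ℤ) (F v)))
    (fun z hz => by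
      have h1 := hI.lev_le z (hNbU z hz)
      have h2 := hF z hz
      change max 0 (min (M : ℤ) (F z)) = lev z
      omega)
    (fun u hu v huv => by
      have h1 := hLip u hu v huv
      rw [abs_le] at h1 ⊢
      change -1 ≤ max 0 (min (M : ℤ) (F u)) - max 0 (min (M : ℤ) (F v)) ∧
        max 0 (min (M : ℤ) (F u)) - max 0 (min (M : ℤ) (F v)) ≤ 1
      omega)
    (fun v => by
      change 0 ≤ max 0 (min (M : ℤ) (F v)) ∧ max 0 (min (M : ℤ) (F v)) ≤ M
      omega)
    (fun j => by
      refine le_trans ?_ hc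
      refine (Set.ncard_le_ncard (t := {a}) ?_ (finite_singleton a)).trans ?_
      · intro v hv
        exact hv.1
      · rw [ncard_singleton])
    (by
      intro Om' h'
      have haO' : a ∉ Om' := fun hh => (h'.1 hh).2 rfl
      refine Or.inr (Or.inl ⟨Omᶜ, Om \ Om', x, N, hcon,
        con_diff_comp hOm.2.1 (singleton_subset_iff.2 ha) (con_singleton G a) h', ?_, ?_, ?_,
        Nat.lt_succ_of_lt hxN, Nat.lt_succ_self N, ?_, ?_, ?_⟩)
      · rw [Set.disjoint_left]
        intro w hw hw'
        exact hw hw'.1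
      · ext w
        constructor
        · rintro (hw | hw)
          · exact fun hh => hw (h'.1 hh).1
          · exact hw.2
        · intro hw
          by_cases hwO : w ∈ Om
          · exact Or.inr ⟨hwO, hw⟩
          · exact Or.inl hwO
      · exact ⟨b, hb, a, ⟨ha, haO'⟩, e.symm⟩
      · refine Or.inr (Or.inl ?_)
        change x ∈ (if N = N then ({x} : Finset ℕ) else C N)
        rw [if_pos rfl]
        exact Finset.mem_singleton_self x
      · rintro z ⟨hz, u, hu, huz⟩ hzO
        have hza : z ∉ ({a} : Set V) := by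
          intro hh
          rw [mem_singleton_iff] at hh
          rw [hh] at hzO
          exact hzO ha
        exact (if_neg hza).trans (hpart z ⟨hzO, u, (h'.1 hu).1, huz⟩)
      · rintro z ⟨hz, u, hu, huz⟩ hzO
        have hza : z ∈ ({a} : Set V) := by
          by_contra hh
          exact hz (h'.2.2 u hu z ⟨hzO.1, hh⟩ huz)
        exact if_pos hza)
  obtain ⟨lev', hI'⟩ := key
  refine ⟨_, _, lev', _, hI', ?_⟩
  rw [ssubset_iff_of_subset subset_union_left]
  exact ⟨a, Or.inr rfl, hOm.1 ha⟩

end Pool.Agent.W577.PS.One1
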